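import Pool.Agent.helper56.CT.SpecB

/-! # Project cd, module A1: determinant expansion -/

namespace CT
open Finset

section
set_option linter.unusedSectionVars false
variable {E N : Type} [Fintype E] [Fintype N] [DecidableEq E] [DecidableEq N]

open Classical in
theorem A1_det (A : Matrix (E ⊕ N) (E ⊕ N) (ZMod 2)) :
    A.det = if (∀ v, A.mulVec v = 0 → v = 0) then 1 else 0 := by
  have h01 : ∀ z : ZMod 2, z ≠ 0 → z = 1 := by decide
  by_cases h : A.det = 0
  · obtain ⟨v, hv, hv'⟩ := Matrix.exists_mulVec_eq_zero_iff.2 h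
    rw [h, if_neg]
    intro h1
    exact hv (h1 v hv')
  · rw [h01 _ h, if_pos]
    intro v hv
    by_contra hne
    exact h (Matrix.exists_mulVec_eq_zero_iff.1 ⟨v, hne, hv⟩)

/-- the rows of the vertices -/
def A1_R (inc : E → N → ZMod 2) (g : N → Option N) (n : N) : E ⊕ N → ZMod 2 :=
  match g n with
  | none => Sum.elim (fun a => inc a n) 0
  | some m => Sum.elim 0 (Pi.single m 1)

theorem A1_R_mul (inc : E → N → ZMod 2) (g : N → Option N) (n : N) (y : E → ZMod 2)
    (φ : N → ZMod 2) : (A1_R inc g n) ⬝ᵥ (Sum.elim y φ) = 0 ↔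
      ((g n = none → ∑ a, inc a n * y a = 0) ∧ ∀ m, g n = some m → φ m = 0) := by
  unfold A1_R dotProduct
  rw [Fintype.sum_sum_type]
  rcases hg : g n with _ | m
  · simp
  · simp [Pi.single_apply]

/-- the unit rows -/
def A1_U : E ⊕ N → (E ⊕ N → ZMod 2) := fun i => Pi.single i 1

/-- the second summands of the rows -/
def A1_B (inc : E → N → ZMod 2) (g : N → Option N) : E ⊕ N → (E ⊕ N → ZMod 2) :=
  Sum.elim (fun a => Sum.elim 0 (inc a)) (A1_R inc g)

theorem A1_U_mul (a : E) (y : E → ZMod 2) (φ : N → ZMod 2) :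
    (A1_U (Sum.inl a : E ⊕ N)) ⬝ᵥ (Sum.elim y φ) = y a := by
  unfold A1_U
  rw [single_dotProduct]
  simp

theorem A1_B_mul (inc : E → N → ZMod 2) (g : N → Option N) (a : E) (y : E → ZMod 2)
    (φ : N → ZMod 2) :
    (A1_B inc g (Sum.inl a)) ⬝ᵥ (Sum.elim y φ) = ∑ n, inc a n * φ n := by
  unfold A1_B dotProduct
  rw [Fintype.sum_sum_type]
  simp

/-- the matrix -/
def A1_M (inc : E → N → ZMod 2) (g : N → Option N) (x : E → ZMod 2) :
    Matrix (E ⊕ N) (E ⊕ N) (ZMod 2) :=
  (Sum.elim (fun a => x a • A1_U (Sum.inl a)) 0 : E ⊕ N → (E ⊕ N → ZMod 2)) + A1_B inc g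

theorem A1_ker (inc : E → N → ZMod 2) (g : N → Option N) (x : E → ZMod 2) :
    (∀ v, (A1_M inc g x).mulVec v = 0 → v = 0) ↔ NSn inc g x := by
  have key : ∀ (y : E → ZMod 2) (φ : N → ZMod 2), (A1_M inc g x).mulVec (Sum.elim y φ) = 0 ↔
      ((∀ a, x a * y a + ∑ n, inc a n * φ n = 0) ∧ (∀ n, g n = none → ∑ a, inc a n * y a = 0) ∧
        ∀ n m, g n = some m → φ m = 0) := by
    intro y φ
    have e1 : ∀ a, (A1_M inc g x).mulVec (Sum.elim y φ) (Sum.inl a) =
        x a * y a + ∑ n, inc a n * φ n := by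
      intro a
      show (x a • A1_U (Sum.inl a) + A1_B inc g (Sum.inl a)) ⬝ᵥ (Sum.elim y φ) = _
      rw [add_dotProduct, smul_dotProduct, A1_U_mul, A1_B_mul, smul_eq_mul]
    have e2 : ∀ n, (A1_M inc g x).mulVec (Sum.elim y φ) (Sum.inr n) =
        (A1_R inc g n) ⬝ᵥ (Sum.elim y φ) := by
      intro n
      show (0 + A1_B inc g (Sum.inr n)) ⬝ᵥ (Sum.elim y φ) = _
      rw [zero_add]
      rfl
    constructor
    · intro h
      refine ⟨fun a => ?_, fun n hn => ?_, fun n m hn => ?_⟩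
      · rw [← e1 a, h]; rfl
      · exact ((A1_R_mul inc g n y φ).1 (by rw [← e2 n, h]; rfl)).1 hn
      · exact ((A1_R_mul inc g n y φ).1 (by rw [← e2 n, h]; rfl)).2 m hn
    · rintro ⟨h1, h2, h3⟩
      funext i
      rcases i with a | n
      · rw [e1 a, h1 a]; rfl
      · rw [e2 n]
        exact (A1_R_mul inc g n y φ).2 ⟨h2 n, h3 n⟩
  constructor
  · intro h y φ h1 h2 h3
    have h4 := h (Sum.elim y φ) ((key y φ).2 ⟨h1, h2, h3⟩)
    exact ⟨funext fun a => congrFun h4 (Sum.inl a), funext fun n => congrFun h4 (Sum.inr n)⟩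
  · intro h v hv
    have hv' : v = Sum.elim (fun a => v (Sum.inl a)) (fun n => v (Sum.inr n)) := by
      funext i
      rcases i with a | n <;> rfl
    rw [hv'] at hv ⊢
    obtain ⟨h1, h2, h3⟩ := (key _ _).1 hv
    obtain ⟨h4, h5⟩ := h _ _ h1 h2 h3
    rw [h4, h5]
    funext i
    rcases i with a | n <;> rfl

theorem A1_kerT (inc : E → N → ZMod 2) (g : N → Option N) (S : Finset E) :
    (∀ v, Matrix.mulVec ((S.map Function.Embedding.inl).piecewise A1_U (A1_B inc g) :
      E ⊕ N → (E ⊕ N → ZMod 2)) v = 0 → v = 0) ↔ KTn inc g Sᶜ := by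
  set A : Matrix (E ⊕ N) (E ⊕ N) (ZMod 2) :=
    ((S.map Function.Embedding.inl).piecewise A1_U (A1_B inc g) : E ⊕ N → (E ⊕ N → ZMod 2)) with hA
  have hm : ∀ a, (Sum.inl a : E ⊕ N) ∈ S.map Function.Embedding.inl ↔ a ∈ S := by
    intro a
    simp
  have hm' : ∀ n, (Sum.inr n : E ⊕ N) ∉ S.map Function.Embedding.inl := by
    intro n
    simp
  have key : ∀ (y : E → ZMod 2) (φ : N → ZMod 2), A.mulVec (Sum.elim y φ) = 0 ↔
      (((∀ a, a ∉ Sᶜ → y a = 0) ∧ (∀ n, g n = none → ∑ a, inc a n * y a = 0)) ∧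
        ((∀ a ∈ Sᶜ, ∑ n, inc a n * φ n = 0) ∧ ∀ n m, g n = some m → φ m = 0)) := by
    intro y φ
    have e1 : ∀ a ∈ S, A.mulVec (Sum.elim y φ) (Sum.inl a) = y a := by
      intro a ha
      show (((S.map Function.Embedding.inl).piecewise A1_U (A1_B inc g) :
        E ⊕ N → (E ⊕ N → ZMod 2)) (Sum.inl a)) ⬝ᵥ (Sum.elim y φ) = _
      rw [Finset.piecewise_eq_of_mem _ _ _ ((hm a).2 ha), A1_U_mul]
    have e2 : ∀ a ∉ S, A.mulVec (Sum.elim y φ) (Sum.inl a) = ∑ n, inc a n * φ n := by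
      intro a ha
      show (((S.map Function.Embedding.inl).piecewise A1_U (A1_B inc g) :
        E ⊕ N → (E ⊕ N → ZMod 2)) (Sum.inl a)) ⬝ᵥ (Sum.elim y φ) = _
      rw [Finset.piecewise_eq_of_notMem _ _ _ (fun h => ha ((hm a).1 h)), A1_B_mul]
    have e3 : ∀ n, A.mulVec (Sum.elim y φ) (Sum.inr n) = (A1_R inc g n) ⬝ᵥ (Sum.elim y φ) := by
      intro n
      show (((S.map Function.Embedding.inl).piecewise A1_U (A1_B inc g) :
        E ⊕ N → (E ⊕ N → ZMod 2)) (Sum.inr n)) ⬝ᵥ (Sum.elim y φ) = _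
      rw [Finset.piecewise_eq_of_notMem _ _ _ (hm' n)]
      rfl
    constructor
    · intro h
      refine ⟨⟨fun a ha => ?_, fun n hn => ?_⟩, fun a ha => ?_, fun n m hn => ?_⟩
      · have ha' : a ∈ S := by simpa using ha
        rw [← e1 a ha', h]; rfl
      · exact ((A1_R_mul inc g n y φ).1 (by rw [← e3 n, h]; rfl)).1 hn
      · have ha' : a ∉ S := by simpa using ha
        rw [← e2 a ha', h]; rfl
      · exact ((A1_R_mul inc g n y φ).1 (by rw [← e3 n, h]; rfl)).2 m hn
    · rintro ⟨⟨h1, h2⟩, h3, h4⟩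
      funext i
      rcases i with a | n
      · by_cases ha : a ∈ S
        · rw [e1 a ha, h1 a (by simpa using ha)]; rfl
        · rw [e2 a ha, h3 a (by simpa using ha)]; rfl
      · rw [e3 n]
        exact (A1_R_mul inc g n y φ).2 ⟨h2 n, h4 n⟩
  constructor
  · intro h
    constructor
    · intro y h1 h2
      have h4 := h (Sum.elim y 0) ((key y 0).2 ⟨⟨h1, h2⟩, fun a _ => by simp, fun n m _ => rfl⟩)
      exact funext fun a => congrFun h4 (Sum.inl a)
    · intro φ h1 h2
      have h4 := h (Sum.elim 0 φ) ((key 0 φ).2 ⟨⟨fun a _ => rfl, fun n _ => by simp⟩, h1, h2⟩)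
      exact funext fun n => congrFun h4 (Sum.inr n)
  · rintro ⟨hy, hφ⟩ v hv
    have hv' : v = Sum.elim (fun a => v (Sum.inl a)) (fun n => v (Sum.inr n)) := by
      funext i
      rcases i with a | n <;> rfl
    rw [hv'] at hv ⊢
    obtain ⟨⟨h1, h2⟩, h3, h4⟩ := (key _ _).1 hv
    rw [hy _ h1 h2, hφ _ h3 h4]
    funext i
    rcases i with a | n <;> rfl

theorem A1_exp (inc : E → N → ZMod 2) (g : N → Option N) (x : E → ZMod 2) :
    (A1_M inc g x).det = ∑ S : Finset E, (∏ a ∈ S, x a) *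
      Matrix.det ((S.map Function.Embedding.inl).piecewise A1_U (A1_B inc g) :
        E ⊕ N → (E ⊕ N → ZMod 2)) := by
  set F : MultilinearMap (ZMod 2) (fun _ : E ⊕ N => E ⊕ N → ZMod 2) (ZMod 2) :=
    (Matrix.detRowAlternating : (E ⊕ N → ZMod 2) [⋀^(E ⊕ N)]→ₗ[ZMod 2] ZMod 2).toMultilinearMap
    with hF
  have hFd : ∀ A : E ⊕ N → (E ⊕ N → ZMod 2), F A = Matrix.det A := fun A => rfl
  set m : E ⊕ N → (E ⊕ N → ZMod 2) := Sum.elim (fun a => x a • A1_U (Sum.inl a)) 0 with hm
  have h1 : (A1_M inc g x).det = F (m + A1_B inc g) := rfl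
  rw [h1, MultilinearMap.map_add_univ]
  -- the sets containing a vertex row do not contribute
  have h2 : ∀ S ∈ (univ : Finset (Finset (E ⊕ N))),
      S ∉ (univ : Finset (Finset E)).image (fun S => S.map Function.Embedding.inl) →
      F (S.piecewise m (A1_B inc g)) = 0 := by
    intro S _ hS
    have h3 : ∃ n, (Sum.inr n : E ⊕ N) ∈ S := by
      by_contra hc
      push Not at hc
      apply hS
      rw [Finset.mem_image]
      refine ⟨univ.filter fun a => (Sum.inl a : E ⊕ N) ∈ S, Finset.mem_univ _, ?_⟩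
      ext i
      rcases i with a | n
      · simp
      · simp [hc n]
    obtain ⟨n, hn⟩ := h3
    refine F.map_coord_zero (i := Sum.inr n) ?_
    rw [Finset.piecewise_eq_of_mem _ _ _ hn]
    rfl
  rw [← Finset.sum_subset (Finset.subset_univ _) h2, Finset.sum_image]
  · refine Finset.sum_congr rfl fun S _ => ?_
    set S' := S.map Function.Embedding.inl with hS'
    set c : E ⊕ N → ZMod 2 := Sum.elim x 1 with hc
    have h3 : S'.piecewise m (A1_B inc g) = S'.piecewise
        (fun i => c i • (S'.piecewise A1_U (A1_B inc g)) i) (S'.piecewise A1_U (A1_B inc g)) := by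
      funext i
      by_cases hi : i ∈ S'
      · rw [Finset.piecewise_eq_of_mem _ _ _ hi, Finset.piecewise_eq_of_mem _ _ _ hi,
          Finset.piecewise_eq_of_mem _ _ _ hi]
        rw [hS', Finset.mem_map] at hi
        obtain ⟨a, -, rfl⟩ := hi
        rfl
      · rw [Finset.piecewise_eq_of_notMem _ _ _ hi, Finset.piecewise_eq_of_notMem _ _ _ hi,
          Finset.piecewise_eq_of_notMem _ _ _ hi]
    rw [h3, MultilinearMap.map_piecewise_smul, hFd, hS', Finset.prod_map, smul_eq_mul]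
    rfl
  · intro S _ S' _ h
    exact Finset.map_injective _ h

end

open Classical in
theorem A1 : A1_stmt := by
  intro E N _ _ _ _ inc g x
  have h1 := A1_det (A1_M inc g x)
  have h2 : (if NSn inc g x then (1 : ZMod 2) else 0) = (A1_M inc g x).det := by
    rw [h1]
    exact if_congr (A1_ker inc g x).symm rfl rfl
  rw [h2, A1_exp]
  unfold hT
  rw [Finset.sum_filter]
  rw [← Equiv.sum_comp (Function.Involutive.toPerm (compl : Finset E → Finset E) compl_involutive)]
  refine Finset.sum_congr rfl fun S _ => ?_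
  have hk := A1_kerT inc g Sᶜ
  rw [compl_compl] at hk
  rw [Function.Involutive.coe_toPerm, A1_det]
  by_cases h3 : KTn inc g S
  · rw [if_pos h3, if_pos (hk.2 h3), mul_one]
  · rw [if_neg h3, if_neg (fun h => h3 (hk.1 h)), mul_zero]

end CT
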