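import Pool.Agent.helper56.CT.SpecB

/-! # Project cd, module A3d: separating forests -/

namespace CT
open Finset

section
set_option linter.unusedSectionVars false
variable {E N : Type} [Fintype E] [Fintype N] [DecidableEq E] [DecidableEq N]

/-- currents on `T` conserved off `a`, `b` vanish -/
def A3d_P (inc : E → N → ZMod 2) (T : Finset E) (a b : N) : Prop :=
  ∀ y : E → ZMod 2, (∀ e, e ∉ T → y e = 0) → (∀ n, n ≠ a → n ≠ b → ∑ e, inc e n * y e = 0) → y = 0

/-- potentials constant along `T` vanishing at `a`, `b` vanish -/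
def A3d_Q (inc : E → N → ZMod 2) (T : Finset E) (a b : N) : Prop :=
  ∀ φ : N → ZMod 2, (∀ e ∈ T, ∑ n, inc e n * φ n = 0) → φ a = 0 → φ b = 0 → φ = 0

theorem A3d_g2 (inc : E → N → ZMod 2) (T : Finset E) (a b : N) (hab : a ≠ b) :
    KTn inc (g2 a b) T ↔ A3d_P inc T a b ∧ A3d_Q inc T a b := by
  unfold KTn A3d_P A3d_Q g2
  constructor
  · rintro ⟨h1, h2⟩
    refine ⟨fun y hy hn => h1 y hy fun n hn' => ?_, fun φ hφ ha hb => h2 φ hφ fun n m hnm => ?_⟩
    · by_cases h3 : n = a
      · rw [if_pos h3] at hn'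
        exact absurd hn' (Option.some_ne_none _)
      · rw [if_neg h3] at hn'
        by_cases h4 : n = b
        · rw [if_pos h4] at hn'
          exact absurd hn' (Option.some_ne_none _)
        · exact hn n h3 h4
    · by_cases h3 : n = a
      · rw [if_pos h3] at hnm
        rw [← Option.some.inj hnm, ha]
      · rw [if_neg h3] at hnm
        by_cases h4 : n = b
        · rw [if_pos h4] at hnm
          rw [← Option.some.inj hnm, hb]
        · rw [if_neg h4] at hnm
          exact absurd hnm.symm (Option.some_ne_none _)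
  · rintro ⟨h1, h2⟩
    refine ⟨fun y hy hn => h1 y hy fun n h3 h4 => hn n ?_, fun φ hφ hn => h2 φ hφ ?_ ?_⟩
    · rw [if_neg h3, if_neg h4]
    · exact hn a a (by rw [if_pos rfl])
    · exact hn b b (by rw [if_neg (Ne.symm hab), if_pos rfl])

theorem A3d_g3 (inc : E → N → ZMod 2) (T : Finset E) (a b c : N) (hab : a ≠ b) :
    KTn inc (g3 a b c) T ↔ A3d_P inc T a b ∧ A3d_Q inc T a c := by
  unfold KTn A3d_P A3d_Q g3
  constructor
  · rintro ⟨h1, h2⟩
    refine ⟨fun y hy hn => h1 y hy fun n hn' => ?_, fun φ hφ ha hb => h2 φ hφ fun n m hnm => ?_⟩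
    · by_cases h3 : n = a
      · rw [if_pos h3] at hn'
        exact absurd hn' (Option.some_ne_none _)
      · rw [if_neg h3] at hn'
        by_cases h4 : n = b
        · rw [if_pos h4] at hn'
          exact absurd hn' (Option.some_ne_none _)
        · exact hn n h3 h4
    · by_cases h3 : n = a
      · rw [if_pos h3] at hnm
        rw [← Option.some.inj hnm, ha]
      · rw [if_neg h3] at hnm
        by_cases h4 : n = b
        · rw [if_pos h4] at hnm
          rw [← Option.some.inj hnm, hb]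
        · rw [if_neg h4] at hnm
          exact absurd hnm.symm (Option.some_ne_none _)
  · rintro ⟨h1, h2⟩
    refine ⟨fun y hy hn => h1 y hy fun n h3 h4 => hn n ?_, fun φ hφ hn => h2 φ hφ ?_ ?_⟩
    · rw [if_neg h3, if_neg h4]
    · exact hn a a (by rw [if_pos rfl])
    · exact hn b c (by rw [if_neg (Ne.symm hab), if_pos rfl])

/-- the map of the currents -/
def A3d_L (inc : E → N → ZMod 2) (T : Finset E) (a b : N) :
    (E → ZMod 2) →ₗ[ZMod 2] (({e // e ∉ T} → ZMod 2) × ({n : N // n ≠ a ∧ n ≠ b} → ZMod 2)) where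
  toFun y := (fun e => y e, fun n => ∑ e, inc e n * y e)
  map_add' y z := by
    refine Prod.ext rfl (funext fun n => ?_)
    simp [mul_add, Finset.sum_add_distrib]
  map_smul' c y := by
    refine Prod.ext rfl (funext fun n => ?_)
    simp [Finset.mul_sum, mul_left_comm]

/-- the map of the potentials -/
def A3d_G (inc : E → N → ZMod 2) (T : Finset E) (a b : N) :
    (N → ZMod 2) →ₗ[ZMod 2] (({e // e ∈ T} → ZMod 2) × (ZMod 2 × ZMod 2)) where
  toFun φ := (fun e => ∑ n, inc e n * φ n, (φ a, φ b))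
  map_add' y z := by
    refine Prod.ext (funext fun n => ?_) rfl
    simp [mul_add, Finset.sum_add_distrib]
  map_smul' c y := by
    refine Prod.ext (funext fun n => ?_) rfl
    simp [Finset.mul_sum, mul_left_comm]

theorem A3d_Linj {inc : E → N → ZMod 2} {T : Finset E} {a b : N} (h : A3d_P inc T a b) :
    Function.Injective (A3d_L inc T a b) := by
  rw [injective_iff_map_eq_zero]
  intro y hy
  refine h y (fun e he => ?_) fun n hna hnb => ?_
  · exact congrFun (congrArg Prod.fst hy) ⟨e, he⟩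
  · exact congrFun (congrArg Prod.snd hy) ⟨n, hna, hnb⟩

theorem A3d_Ginj {inc : E → N → ZMod 2} {T : Finset E} {a b : N} (h : A3d_Q inc T a b) :
    Function.Injective (A3d_G inc T a b) := by
  rw [injective_iff_map_eq_zero]
  intro φ hφ
  refine h φ (fun e he => ?_) ?_ ?_
  · exact congrFun (congrArg Prod.fst hφ) ⟨e, he⟩
  · exact congrArg (fun z => z.2.1) hφ
  · exact congrArg (fun z => z.2.2) hφ

theorem A3d_Ldim (T : Finset E) (a b : N) (hab : a ≠ b) :
    Module.finrank (ZMod 2) (({e // e ∉ T} → ZMod 2) × ({n : N // n ≠ a ∧ n ≠ b} → ZMod 2)) +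
      T.card + 2 = Fintype.card E + Fintype.card N := by
  rw [Module.finrank_prod, Module.finrank_fintype_fun_eq_card, Module.finrank_fintype_fun_eq_card,
    Fintype.card_of_subtype (Tᶜ) (by simp), Fintype.card_of_subtype (({a, b} : Finset N)ᶜ)
      (by intro x; simp)]
  have h1 := Finset.card_add_card_compl T
  have h2 := Finset.card_add_card_compl ({a, b} : Finset N)
  rw [Finset.card_pair hab] at h2
  omega

theorem A3d_Gdim (T : Finset E) :
    Module.finrank (ZMod 2) (({e // e ∈ T} → ZMod 2) × (ZMod 2 × ZMod 2)) = T.card + 2 := by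
  rw [Module.finrank_prod, Module.finrank_prod, Module.finrank_fintype_fun_eq_card,
    Module.finrank_self, Fintype.card_coe]

theorem A3d_card_P {inc : E → N → ZMod 2} {T : Finset E} {a b : N} (hab : a ≠ b)
    (h : A3d_P inc T a b) : T.card + 2 ≤ Fintype.card N := by
  have h1 := LinearMap.finrank_le_finrank_of_injective (A3d_Linj h)
  rw [Module.finrank_fintype_fun_eq_card] at h1
  have h2 := A3d_Ldim T a b hab
  omega

theorem A3d_card_Q {inc : E → N → ZMod 2} {T : Finset E} {a b : N} (h : A3d_Q inc T a b) :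
    Fintype.card N ≤ T.card + 2 := by
  have h1 := LinearMap.finrank_le_finrank_of_injective (A3d_Ginj h)
  rwa [Module.finrank_fintype_fun_eq_card, A3d_Gdim] at h1

theorem A3d_Lsurj {inc : E → N → ZMod 2} {T : Finset E} {a b : N} (hab : a ≠ b)
    (h : A3d_P inc T a b) (hc : T.card + 2 = Fintype.card N) (z : N → ZMod 2) :
    ∃ y : E → ZMod 2, (∀ e, e ∉ T → y e = 0) ∧
      ∀ n, n ≠ a → n ≠ b → ∑ e, inc e n * y e = z n := by
  have h1 : Module.finrank (ZMod 2) (E → ZMod 2) = Module.finrank (ZMod 2)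
      (({e // e ∉ T} → ZMod 2) × ({n : N // n ≠ a ∧ n ≠ b} → ZMod 2)) := by
    rw [Module.finrank_fintype_fun_eq_card]
    have h2 := A3d_Ldim T a b hab
    omega
  obtain ⟨y, hy⟩ := (LinearMap.injective_iff_surjective_of_finrank_eq_finrank h1).1
    (A3d_Linj h) (0, fun n => z n)
  refine ⟨y, fun e he => ?_, fun n hna hnb => ?_⟩
  · exact congrFun (congrArg Prod.fst hy) ⟨e, he⟩
  · exact congrFun (congrArg Prod.snd hy) ⟨n, hna, hnb⟩

theorem A3d_Gsurj {inc : E → N → ZMod 2} {T : Finset E} {a b : N}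
    (h : A3d_Q inc T a b) (hc : T.card + 2 = Fintype.card N) :
    ∃ ψ : N → ZMod 2, (∀ e ∈ T, ∑ n, inc e n * ψ n = 0) ∧ ψ a = 0 ∧ ψ b = 1 := by
  have h1 : Module.finrank (ZMod 2) (N → ZMod 2) = Module.finrank (ZMod 2)
      (({e // e ∈ T} → ZMod 2) × (ZMod 2 × ZMod 2)) := by
    rw [Module.finrank_fintype_fun_eq_card, A3d_Gdim, hc]
  obtain ⟨ψ, hψ⟩ := (LinearMap.injective_iff_surjective_of_finrank_eq_finrank h1).1
    (A3d_Ginj h) (0, (0, 1))
  refine ⟨ψ, fun e he => ?_, ?_, ?_⟩
  · exact congrFun (congrArg Prod.fst hψ) ⟨e, he⟩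
  · exact congrArg (fun z => z.2.1) hψ
  · exact congrArg (fun z => z.2.2) hψ

theorem A3d_one {inc : E → N → ZMod 2} (h2 : TwoEnds inc) (e : E) : ∑ n, inc e n = 0 := by
  obtain ⟨m, n, hmn, h⟩ := h2 e
  have h1 : ∀ k, inc e k = (if k = m then 1 else 0) + (if k = n then 1 else 0) := by
    intro k
    rw [h k]
    by_cases hm : k = m
    · have hn : k ≠ n := fun hn => hmn (hm.symm.trans hn)
      simp [hm, hmn]
    · by_cases hn : k = n
      · simp [hn, Ne.symm hmn]
      · simp [hm, hn]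
  rw [Finset.sum_congr rfl fun k _ => h1 k, Finset.sum_add_distrib]
  simp
  decide

/-- reciprocity -/
theorem A3d_rec {inc : E → N → ZMod 2} {T : Finset E} {y : E → ZMod 2} {φ : N → ZMod 2}
    (hy : ∀ e, e ∉ T → y e = 0) (hφ : ∀ e ∈ T, ∑ n, inc e n * φ n = 0) :
    ∑ n, φ n * ∑ e, inc e n * y e = 0 := by
  have h1 : ∑ n, φ n * ∑ e, inc e n * y e = ∑ e, y e * ∑ n, inc e n * φ n := by
    simp only [Finset.mul_sum]
    rw [Finset.sum_comm]
    exact Finset.sum_congr rfl fun e _ => Finset.sum_congr rfl fun n _ => by ring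
  rw [h1]
  refine Finset.sum_eq_zero fun e _ => ?_
  by_cases he : e ∈ T
  · rw [hφ e he, mul_zero]
  · rw [hy e he, zero_mul]

/-- a current conserved off `p`, `q`, with a potential which distinguishes `p` and `q`, is conserved everywhere -/
theorem A3d_cons {inc : E → N → ZMod 2} (h2 : TwoEnds inc) {T : Finset E} {y : E → ZMod 2}
    {φ : N → ZMod 2} {p q : N} (hpq : p ≠ q) (hy : ∀ e, e ∉ T → y e = 0)
    (hφ : ∀ e ∈ T, ∑ n, inc e n * φ n = 0) (hp : φ p = 0) (hq : φ q = 1)
    (hn : ∀ n, n ≠ p → n ≠ q → ∑ e, inc e n * y e = 0) : ∀ n, ∑ e, inc e n * y e = 0 := by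
  have hsum : ∀ φ : N → ZMod 2, ∑ n, φ n * ∑ e, inc e n * y e =
      φ p * (∑ e, inc e p * y e) + φ q * ∑ e, inc e q * y e := by
    intro φ
    rw [← Finset.sum_pair (f := fun n => φ n * ∑ e, inc e n * y e) hpq]
    symm
    refine Finset.sum_subset (Finset.subset_univ _) fun n _ hn' => ?_
    rw [Finset.mem_insert, Finset.mem_singleton, not_or] at hn'
    rw [hn n hn'.1 hn'.2, mul_zero]
  have h3 := A3d_rec hy hφ
  rw [hsum, hp, hq, zero_mul, zero_add, one_mul] at h3
  have h4 := A3d_rec (φ := fun _ => 1) hy (fun e _ => by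
    simp only [mul_one]
    exact A3d_one h2 e)
  rw [hsum, h3, one_mul, mul_zero, add_zero] at h4
  intro n
  by_cases h5 : n = p
  · rw [h5, h4]
  · by_cases h6 : n = q
    · rw [h6, h3]
    · exact hn n h5 h6

theorem A3d_add {inc : E → N → ZMod 2} {T : Finset E} {φ ψ : N → ZMod 2}
    (hφ : ∀ e ∈ T, ∑ n, inc e n * φ n = 0) (hψ : ∀ e ∈ T, ∑ n, inc e n * ψ n = 0) :
    ∀ e ∈ T, ∑ n, inc e n * (φ + ψ) n = 0 := by
  intro e he
  simp only [Pi.add_apply, mul_add, Finset.sum_add_distrib]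
  rw [hφ e he, hψ e he, add_zero]

/-- `Q p q` transported to `Q p r` by a potential -/
theorem A3d_QQ {inc : E → N → ZMod 2} {T : Finset E} {ψ : N → ZMod 2} {p q r : N}
    (hQ : A3d_Q inc T p q) (hψ : ∀ e ∈ T, ∑ n, inc e n * ψ n = 0) (hp : ψ p = 0) (hq : ψ q = 1)
    (hr : ψ r = 1) : A3d_Q inc T p r := by
  have h01 : ∀ z : ZMod 2, z = 0 ∨ z = 1 := by decide
  intro φ hφ h1 h2
  rcases h01 (φ q) with h3 | h3
  · exact hQ φ hφ h1 h3
  · have h4 := hQ (φ + ψ) (A3d_add hφ hψ) (by rw [Pi.add_apply, h1, hp, add_zero])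
      (by rw [Pi.add_apply, h3, hq]; decide)
    have h5 := congrFun h4 r
    rw [Pi.add_apply, h2, hr, Pi.zero_apply] at h5
    exact absurd h5 (by decide)

end

theorem A3d : A3d_stmt := by
  intro E N _ _ _ _ inc T a b c h2 hab hac hbc
  have h01 : ∀ z : ZMod 2, z = 0 ∨ z = 1 := by decide
  have h11 : (1 : ZMod 2) + 1 = 0 := by decide
  rw [A3d_g2 inc T a b hab, A3d_g2 inc T a c hac, A3d_g2 inc T b c hbc, A3d_g3 inc T a b c hab]
  have hone : ∀ e ∈ T, ∑ n, inc e n * (fun _ : N => (1 : ZMod 2)) n = 0 := by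
    intro e _
    simp only [mul_one]
    exact A3d_one h2 e
  have hQsymm : ∀ p q, A3d_Q inc T p q → A3d_Q inc T q p := fun p q h φ h1 h3 h4 => h φ h1 h4 h3
  refine ⟨?_, ?_, ?_⟩
  · rintro ⟨hP, hQ⟩
    have hc : T.card + 2 = Fintype.card N := le_antisymm (A3d_card_P hab hP) (A3d_card_Q hQ)
    obtain ⟨ψ, hψ, hψa, hψb⟩ := A3d_Gsurj hQ hc
    set ψ' : N → ZMod 2 := ψ + fun _ => 1 with hψ'
    have hψ'T : ∀ e ∈ T, ∑ n, inc e n * ψ' n = 0 := A3d_add hψ hone
    have hψ'a : ψ' a = 1 := by rw [hψ', Pi.add_apply, hψa, zero_add]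
    have hψ'b : ψ' b = 0 := by rw [hψ', Pi.add_apply, hψb, h11]
    rcases h01 (ψ c) with hψc | hψc
    · right
      have hψ'c : ψ' c = 1 := by rw [hψ', Pi.add_apply, hψc, zero_add]
      constructor
      · rintro ⟨-, hQ'⟩
        have h3 := hQ' ψ hψ hψa hψc
        rw [h3, Pi.zero_apply] at hψb
        exact absurd hψb (by decide)
      · constructor
        · intro y hy hn
          have h3 := A3d_cons h2 hbc hy hψ'T hψ'b hψ'c hn
          exact hP y hy fun n _ _ => h3 n
        · exact A3d_QQ (hQsymm a b hQ) hψ'T hψ'b hψ'a hψ'c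
    · left
      have hψ'c : ψ' c = 0 := by rw [hψ', Pi.add_apply, hψc, h11]
      constructor
      · constructor
        · intro y hy hn
          have h3 := A3d_cons h2 hac hy hψ hψa hψc hn
          exact hP y hy fun n _ _ => h3 n
        · exact A3d_QQ hQ hψ hψa hψb hψc
      · rintro ⟨-, hQ'⟩
        have h3 := hQ' ψ' hψ'T hψ'b hψ'c
        rw [h3, Pi.zero_apply] at hψ'a
        exact absurd hψ'a (by decide)
  · rintro ⟨hP, hQ⟩
    have hc : T.card + 2 = Fintype.card N := le_antisymm (A3d_card_P hab hP) (A3d_card_Q hQ)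
    obtain ⟨ψ, hψ, hψa, hψc⟩ := A3d_Gsurj hQ hc
    have hψb : ψ b = 1 := by
      rcases h01 (ψ b) with h | h
      · exfalso
        obtain ⟨y, hy, hn⟩ := A3d_Lsurj hab hP hc (fun n => if n = c then 1 else 0)
        have h3 := A3d_rec hy hψ
        have h4 : ∑ n, ψ n * ∑ e, inc e n * y e = ψ c * ∑ e, inc e c * y e := by
          refine Finset.sum_eq_single c (fun n _ hnc => ?_) (fun h => absurd (Finset.mem_univ _) h)
          by_cases hna : n = a
          · rw [hna, hψa, zero_mul]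
          · by_cases hnb : n = b
            · rw [hnb, h, zero_mul]
            · rw [hn n hna hnb, if_neg hnc, mul_zero]
        rw [h4, hψc, hn c (Ne.symm hac) (Ne.symm hbc), if_pos rfl] at h3
        exact absurd h3 (by decide)
      · exact h
    refine ⟨⟨hP, A3d_QQ hQ hψ hψa hψc hψb⟩, ?_, hQ⟩
    intro y hy hn
    have h3 := A3d_cons h2 hac hy hψ hψa hψc hn
    exact hP y hy fun n _ _ => h3 n
  · rintro ⟨⟨hP, -⟩, -, hQ⟩
    exact ⟨hP, hQ⟩

end CT
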